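import Mathlib

set_option autoImplicit false

namespace Pool.Agent.Work.MP_06621a_co

open Finset

/-- `F n = M n + 1`. -/
def F : ℕ → ℕ
  | 0 => 1
  | 1 => 2
  | (n + 2) => 2 * F n + 1

lemma F_add_two (n : ℕ) : F (n + 2) = 2 * F n + 1 := rfl

lemma F_ge (n : ℕ) : n + 1 ≤ F n := by
  induction n using Nat.strong_induction_on with
  | _ n ih =>
    match n with
    | 0 => simp [F]
    | 1 => simp [F]
    | (k + 2) =>
      have := ih k (by omega)
      rw [F_add_two]; omega

lemma F_gt (n : ℕ) (h : 3 ≤ n) : n + 1 < F n := by
  match n, h with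
  | (k + 2), h =>
    have := F_ge k
    rw [F_add_two]
    omega

lemma F_convex (n : ℕ) : 2 * F (n + 1) ≤ F n + F (n + 2) := by
  induction n using Nat.strong_induction_on with
  | _ n ih =>
    match n with
    | 0 => simp [F]
    | 1 => simp [F]
    | (k + 2) =>
      have h := ih k (by omega)
      have h1 : F (k + 2 + 1) = 2 * F (k + 1) + 1 := rfl
      have h2 : F (k + 2 + 2) = 2 * F (k + 2) + 1 := rfl
      have h3 : F (k + 2) = 2 * F k + 1 := rfl
      omega

lemma F_mono : Monotone F := by
  apply monotone_nat_of_le_succ
  intro n
  induction n using Nat.strong_induction_on with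
  | _ n ih =>
    match n with
    | 0 => simp [F]
    | 1 => simp [F]
    | (k + 2) =>
      have h := ih k (by omega)
      have h1 : F (k + 2 + 1) = 2 * F (k + 1) + 1 := rfl
      have h3 : F (k + 2) = 2 * F k + 1 := rfl
      omega

/-- discrete convexity implies the supermodular inequality -/
lemma super (φ : ℕ → ℕ) (hφ : ∀ s, 2 * φ (s + 1) ≤ φ s + φ (s + 2)) (s h k : ℕ) :
    φ (s + h) + φ (s + k) ≤ φ s + φ (s + h + k) := by
  have step : ∀ s h, φ (s + h) + φ (s + 1) ≤ φ s + φ (s + h + 1) := by
    intro s h
    induction h generalizing s with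
    | zero => simp
    | succ h ih =>
      have h1 := ih (s + 1)
      have h2 := hφ s
      have e1 : s + 1 + h = s + (h + 1) := by ring
      have e2 : s + 1 + 1 = s + 2 := by ring
      rw [e1, e2] at h1
      have h3 := ih s
      omega
  induction k with
  | zero => simp; omega
  | succ k ih =>
    have h1 := step (s + k) h
    have e1 : s + k + h = s + h + k := by ring
    rw [e1] at h1
    have e2 : s + (k + 1) = s + k + 1 := by ring
    have e3 : s + h + (k + 1) = s + h + k + 1 := by ring
    rw [e2, e3]
    omega

lemma super' (φ : ℕ → ℕ) (hφ : ∀ s, 2 * φ (s + 1) ≤ φ s + φ (s + 2)) (a b c d : ℕ)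
    (hab : a ≤ b) (hcd : c ≤ d) :
    φ (a + d) + φ (b + c) ≤ φ (a + c) + φ (b + d) := by
  obtain ⟨h, rfl⟩ := Nat.exists_eq_add_of_le hab
  obtain ⟨k, rfl⟩ := Nat.exists_eq_add_of_le hcd
  have := super φ hφ (a + c) h k
  have e1 : a + (c + k) = a + c + k := by ring
  have e2 : a + h + c = a + c + h := by ring
  have e3 : a + h + (c + k) = a + c + h + k := by ring
  rw [e1, e2, e3]; omega

lemma exists_ge_of_inj {ι : Type*} (S : Finset ι) (l : ι → ℕ) (hl : Set.InjOn l S) (q : ℕ)
    (hq : S.card = q + 1) : ∃ a ∈ S, q ≤ l a ∧ ∀ x ∈ S, l x ≤ l a := by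
  have hne : S.Nonempty := by
    rw [← Finset.card_pos]; omega
  obtain ⟨a, ha, hmax⟩ := S.exists_max_image l hne
  refine ⟨a, ha, ?_, hmax⟩
  by_contra hlt
  push Not at hlt
  have : S.image l ⊆ Finset.range q := by
    intro y hy
    rw [Finset.mem_image] at hy
    obtain ⟨x, hx, rfl⟩ := hy
    have := hmax x hx
    rw [Finset.mem_range]; omega
  have hc := Finset.card_le_card this
  rw [Finset.card_image_of_injOn hl, Finset.card_range, hq] at hc
  omega

lemma rearr (φ : ℕ → ℕ) (hanti : Antitone φ) (hφ : ∀ s, 2 * φ (s + 1) ≤ φ s + φ (s + 2))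
    {ι : Type*} [DecidableEq ι] (q : ℕ) :
    ∀ (S : Finset ι) (l r : ι → ℕ), Set.InjOn l S → Set.InjOn r S → S.card = q →
      ∑ a ∈ S, φ (l a + r a) ≤ ∑ i ∈ Finset.range q, φ (2 * i) := by
  induction q with
  | zero =>
    intro S l r _ _ hc
    rw [Finset.card_eq_zero] at hc
    subst hc; simp
  | succ q ih =>
    intro S l r hl hr hc
    obtain ⟨a, ha, hqa, hamax⟩ := exists_ge_of_inj S l hl q hc
    obtain ⟨b, hb, hqb, hbmax⟩ := exists_ge_of_inj S r hr q hc
    -- swapped version of r
    set r' : ι → ℕ := fun x => r (Equiv.swap a b x) with hr'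
    have hswapS : ∀ x ∈ S, Equiv.swap a b x ∈ S := by
      intro x hx
      by_cases h1 : x = a
      · subst h1; simpa using hb
      by_cases h2 : x = b
      · subst h2; simpa using ha
      rw [Equiv.swap_apply_of_ne_of_ne h1 h2]; exact hx
    have hr'inj : Set.InjOn r' S := by
      intro x hx y hy hxy
      have := hr (hswapS x hx) (hswapS y hy) hxy
      exact (Equiv.swap a b).injective this
    have hr'a : r' a = r b := by simp [hr']
    have key : ∑ x ∈ S, φ (l x + r x) ≤ ∑ x ∈ S, φ (l x + r' x) := by
      by_cases hab : a = b
      · subst hab; simp [hr']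
      · have hb' : b ∈ S.erase a := Finset.mem_erase.mpr ⟨Ne.symm hab, hb⟩
        rw [← Finset.add_sum_erase S _ ha, ← Finset.add_sum_erase S _ ha,
          ← Finset.add_sum_erase (S.erase a) _ hb', ← Finset.add_sum_erase (S.erase a) _ hb']
        have hrest : ∑ x ∈ (S.erase a).erase b, φ (l x + r x)
            = ∑ x ∈ (S.erase a).erase b, φ (l x + r' x) := by
          apply Finset.sum_congr rfl
          intro x hx
          rw [Finset.mem_erase, Finset.mem_erase] at hx
          simp only [hr']
          rw [Equiv.swap_apply_of_ne_of_ne hx.2.1 hx.1]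
        rw [hrest]
        have hr'b : r' b = r a := by simp [hr']
        rw [hr'a, hr'b]
        have := super' φ hφ (l b) (l a) (r a) (r b) (hamax b hb) (hbmax a ha)
        omega
    refine key.trans ?_
    rw [← Finset.add_sum_erase S _ ha, Finset.sum_range_succ, add_comm]
    apply add_le_add
    · apply ih
      · exact hl.mono (by simp [Finset.coe_erase])
      · exact hr'inj.mono (by simp [Finset.coe_erase])
      · rw [Finset.card_erase_of_mem ha]; omega
    · apply hanti
      rw [hr'a]; omega

variable {α : Type*} [DecidableEq α]

/-- palindromic scattered subwords, including the empty one -/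
def P (w : List α) : Finset (List α) := w.sublists.toFinset.filter (fun u => u.reverse = u)

lemma mem_P {w u : List α} : u ∈ P w ↔ u.Sublist w ∧ u.reverse = u := by
  simp [P, List.mem_sublists]

lemma sublist_drop {a : α} {v w : List α} (h : (a :: v).Sublist w) :
    v.Sublist (w.drop (w.idxOf a + 1)) := by
  induction w with
  | nil => simp at h
  | cons b w ih =>
    by_cases hb : b = a
    · subst hb
      simpa using h
    · have h2 : (a :: v).Sublist w := by
        cases h with
        | cons _ h => exact h
        | cons_cons _ h => exact absurd rfl hb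
      rw [List.idxOf_cons_ne _ hb]
      simpa using ih h2

/-- distance to the left of the first occurrence -/
def L (w : List α) (a : α) : ℕ := w.idxOf a
/-- distance to the right of the last occurrence -/
def R (w : List α) (a : α) : ℕ := w.reverse.idxOf a

/-- the factor strictly between first and last occurrence -/
def inner (w : List α) (a : α) : List α :=
  (((w.drop (w.idxOf a + 1)).reverse).drop ((w.drop (w.idxOf a + 1)).reverse.idxOf a + 1)).reverse

lemma inner_spec {a : α} {p w : List α} (h : (a :: (p ++ [a])).Sublist w) :
    p.Sublist (inner w a) ∧ L w a + R w a + 2 ≤ w.length ∧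
      (inner w a).length = w.length - 2 - (L w a + R w a) := by
  have h1 := sublist_drop h
  have h2 : (a :: p.reverse).Sublist (w.drop (w.idxOf a + 1)).reverse := by
    have := List.Sublist.reverse h1
    simpa using this
  have h3 := sublist_drop h2
  have hmem : a ∈ (w.drop (w.idxOf a + 1)).reverse := h2.subset (by simp)
  have hR : (w.drop (w.idxOf a + 1)).reverse.idxOf a = w.reverse.idxOf a := by
    conv_rhs => rw [← List.take_append_drop (w.idxOf a + 1) w, List.reverse_append]
    rw [List.idxOf_append_of_mem hmem]
  have hlt : (w.drop (w.idxOf a + 1)).reverse.idxOf a < (w.drop (w.idxOf a + 1)).reverse.length :=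
    List.idxOf_lt_length_iff.mpr hmem
  simp only [List.length_reverse, List.length_drop] at hlt
  refine ⟨?_, ?_, ?_⟩
  · have := List.Sublist.reverse h3
    simpa [inner] using this
  · rw [hR] at hlt
    unfold L R; omega
  · rw [hR] at hlt
    unfold inner L R
    rw [hR]
    simp only [List.length_reverse, List.length_drop]
    omega

/-- letters occurring in w -/
def Lt (w : List α) : Finset α := w.toFinset

/-- letters with two occurrences -/
def S2 (w : List α) : Finset α := (Lt w).filter (fun a => L w a + R w a + 2 ≤ w.length)

lemma P_subset (w : List α) :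
    P w ⊆ insert [] ((Lt w).image (fun a => [a]) ∪
      (S2 w).biUnion (fun a => (P (inner w a)).image (fun p => a :: (p ++ [a])))) := by
  intro u hu
  rw [mem_P] at hu
  obtain ⟨hsub, hpal⟩ := hu
  match u, hsub, hpal with
  | [], _, _ => simp
  | [a], hsub, _ =>
    have : a ∈ w := hsub.subset (by simp)
    rw [Finset.mem_insert, Finset.mem_union]
    right; left
    simp [Lt, this]
  | (a :: b :: t), hsub, hpal =>
    have hne : (b :: t) ≠ [] := by simp
    obtain ⟨p, c, hpc⟩ : ∃ p c, b :: t = p ++ [c] :=
      ⟨(b :: t).dropLast, (b :: t).getLast hne, (List.dropLast_append_getLast hne).symm⟩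
    rw [hpc] at hsub hpal
    simp only [List.reverse_cons, List.reverse_append, List.reverse_nil, List.nil_append,
      List.cons_append] at hpal
    have hca : c = a := by
      have := hpal
      simp only [List.cons.injEq] at this
      exact this.1
    subst hca
    have hp : p.reverse = p := by
      simp only [List.cons.injEq, true_and] at hpal
      exact List.append_cancel_right hpal
    have hs := inner_spec hsub
    have hmem : c ∈ w := hsub.subset (by simp)
    rw [Finset.mem_insert, Finset.mem_union, hpc]
    right; right
    rw [Finset.mem_biUnion]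
    refine ⟨c, ?_, ?_⟩
    · simp only [S2, Lt, Finset.mem_filter, List.mem_toFinset]
      exact ⟨hmem, hs.2.1⟩
    · rw [Finset.mem_image]
      exact ⟨p, mem_P.mpr ⟨hs.1, hp⟩, rfl⟩

lemma two_le_count_of_S2 {w : List α} {a : α} (h : a ∈ S2 w) : 2 ≤ w.count a := by
  rw [S2, Finset.mem_filter] at h
  obtain ⟨hm, hlen⟩ := h
  rw [Lt, List.mem_toFinset] at hm
  unfold L R at hlen
  obtain ⟨s, t, hst, hns⟩ := List.eq_append_cons_of_mem hm
  by_contra hc
  have hnt : a ∉ t := by
    intro hat
    apply hc
    rw [hst, List.count_append, List.count_cons_self]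
    have := List.one_le_count_iff.mpr hat
    omega
  have h1 : w.idxOf a = s.length := by
    rw [hst, List.idxOf_append_of_notMem hns, List.idxOf_cons_self, add_zero]
  have h2 : w.reverse.idxOf a = t.length := by
    rw [hst, List.reverse_append, List.reverse_cons, List.append_assoc,
      List.idxOf_append_of_notMem (by simpa using hnt)]
    simp
  have h3 : w.length = s.length + t.length + 1 := by
    rw [hst]; simp; omega
  omega

lemma card_bound (w : List α) : (Lt w).card + (S2 w).card ≤ w.length := by
  have h1 : ∑ a ∈ Lt w, w.count a = w.length := List.sum_toFinset_count_eq_length w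
  have h2 : (Lt w).card + (S2 w).card ≤ ∑ a ∈ Lt w, w.count a := by
    have : (S2 w).card = ∑ a ∈ Lt w, (if L w a + R w a + 2 ≤ w.length then 1 else 0) := by
      rw [S2, Finset.card_filter]
    rw [this, Finset.card_eq_sum_ones, ← Finset.sum_add_distrib]
    apply Finset.sum_le_sum
    intro a ha
    split_ifs with h
    · exact two_le_count_of_S2 (by simp only [S2, Finset.mem_filter]; exact ⟨ha, h⟩)
    · have : a ∈ w := by simpa [Lt] using ha
      simpa using List.one_le_count_iff.mpr this
  omega

lemma L_inj (w : List α) : Set.InjOn (L w) (Lt w) := by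
  intro a ha b hb hab
  simp only [Lt, List.coe_toFinset, Set.mem_ofPred_eq] at ha hb
  unfold L at hab
  exact (List.idxOf_inj ha).mp hab

lemma R_inj (w : List α) : Set.InjOn (R w) (Lt w) := by
  intro a ha b hb hab
  simp only [Lt, List.coe_toFinset, Set.mem_ofPred_eq] at ha hb
  unfold R at hab
  exact (List.idxOf_inj (by simpa using ha)).mp hab

lemma telescoping (n q : ℕ) (h : 2 * q ≤ n) :
    (∑ i ∈ Finset.range q, F (n - 2 - 2 * i)) + q + F (n - 2 * q) = F n := by
  induction q with
  | zero => simp
  | succ q ih =>
    rw [Finset.sum_range_succ]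
    have h1 := ih (by omega)
    have h2 : F (n - 2 * q) = 2 * F (n - 2 - 2 * q) + 1 := by
      have : n - 2 * q = (n - 2 - 2 * q) + 2 := by omega
      rw [this, F_add_two]
    have h3 : n - 2 * (q + 1) = n - 2 - 2 * q := by omega
    rw [h3]
    omega

lemma phi_anti (N : ℕ) : Antitone (fun s => F (N - s)) := by
  intro a b hab
  exact F_mono (by omega)

lemma phi_convex (N s : ℕ) : 2 * F (N - (s + 1)) ≤ F (N - s) + F (N - (s + 2)) := by
  rcases Nat.lt_or_ge N (s + 2) with h | h
  · rcases Nat.lt_or_ge N (s + 1) with h' | h'
    · have e1 : N - (s + 1) = 0 := by omega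
      have e2 : N - s = 0 := by omega
      have e3 : N - (s + 2) = 0 := by omega
      rw [e1, e2, e3]; simp [F]
    · have e1 : N - (s + 1) = 0 := by omega
      have e2 : N - s = 1 := by omega
      have e3 : N - (s + 2) = 0 := by omega
      rw [e1, e2, e3]; simp [F]
  · obtain ⟨k, rfl⟩ := Nat.exists_eq_add_of_le h
    have e1 : s + 2 + k - (s + 1) = k + 1 := by omega
    have e2 : s + 2 + k - s = k + 2 := by omega
    have e3 : s + 2 + k - (s + 2) = k := by omega
    rw [e1, e2, e3]
    have := F_convex k
    omega

/-- the main inequality, with the letter count -/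
lemma main_ineq (n : ℕ) : ∀ w : List α, w.length = n →
    (P w).card + F (n - 2 * (S2 w).card) + (S2 w).card ≤ 1 + (Lt w).card + F n := by
  induction n using Nat.strong_induction_on with
  | _ n ih =>
    intro w hw
    have ihF : ∀ m < n, ∀ v : List α, v.length = m → (P v).card ≤ F m := by
      intro m hm v hv
      have h := ih m hm v hv
      have hb := card_bound v
      have hs : (S2 v).card ≤ (Lt v).card := Finset.card_le_card (Finset.filter_subset _ _)
      have := F_ge (m - 2 * (S2 v).card)
      omega
    have hcard : (P w).card ≤ 1 + (Lt w).card + ∑ a ∈ S2 w, (P (inner w a)).card := by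
      refine (Finset.card_le_card (P_subset w)).trans ?_
      refine (Finset.card_insert_le _ _).trans ?_
      have h1 := Finset.card_union_le ((Lt w).image (fun a => [a]))
        ((S2 w).biUnion (fun a => (P (inner w a)).image (fun p => a :: (p ++ [a]))))
      have h2 : ((Lt w).image (fun a => [a])).card ≤ (Lt w).card := Finset.card_image_le
      have h3 : ((S2 w).biUnion (fun a => (P (inner w a)).image (fun p => a :: (p ++ [a])))).card
          ≤ ∑ a ∈ S2 w, (P (inner w a)).card := by
        refine Finset.card_biUnion_le.trans ?_
        apply Finset.sum_le_sum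
        intro a _
        exact Finset.card_image_le
      omega
    have hsum : ∑ a ∈ S2 w, (P (inner w a)).card ≤
        ∑ a ∈ S2 w, F (n - 2 - (L w a + R w a)) := by
      apply Finset.sum_le_sum
      intro a ha
      by_cases hP : (P (inner w a)).card = 0
      · omega
      have ha' := ha
      simp only [S2, Finset.mem_filter, Lt, List.mem_toFinset] at ha'
      -- inner length
      have hlen : (inner w a).length = n - 2 - (L w a + R w a) := by
        have hc := two_le_count_of_S2 ha
        have hsub : (a :: ([] ++ [a])).Sublist w := by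
          have := List.replicate_sublist_iff.mpr hc
          simpa using this
        have := (inner_spec hsub).2.2
        rw [this, hw]
      have hlt : n - 2 - (L w a + R w a) < n := by omega
      exact ihF _ hlt _ hlen
    have hre := rearr (fun s => F (n - 2 - s)) (phi_anti (n - 2)) (phi_convex (n - 2))
      (S2 w).card (S2 w) (L w) (R w)
      ((L_inj w).mono (Finset.coe_subset.mpr (Finset.filter_subset _ _)))
      ((R_inj w).mono (Finset.coe_subset.mpr (Finset.filter_subset _ _))) rfl
    have hcb := card_bound w
    have hs : (S2 w).card ≤ (Lt w).card := Finset.card_le_card (Finset.filter_subset _ _)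
    have htel := telescoping n (S2 w).card (by omega)
    omega

lemma card_le (w : List α) : (P w).card ≤ F w.length := by
  have h := main_ineq _ w rfl
  have hb := card_bound w
  have hs : (S2 w).card ≤ (Lt w).card := Finset.card_le_card (Finset.filter_subset _ _)
  have := F_ge (w.length - 2 * (S2 w).card)
  omega

lemma eq_case (w : List α) (h : (P w).card = F w.length) :
    (Odd w.length → (Lt w).card = (w.length + 1) / 2) ∧
    (Even w.length → (Lt w).card = w.length / 2 ∨ (Lt w).card = w.length / 2 + 1) := by
  have h1 := main_ineq _ w rfl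
  have hb := card_bound w
  have hs : (S2 w).card ≤ (Lt w).card := Finset.card_le_card (Finset.filter_subset _ _)
  have hge := F_ge (w.length - 2 * (S2 w).card)
  have h3 : w.length - 2 * (S2 w).card ≤ 2 := by
    by_contra hc
    have := F_gt (w.length - 2 * (S2 w).card) (by omega)
    omega
  constructor
  · rintro ⟨k, hk⟩
    omega
  · rintro ⟨k, hk⟩
    omega

/-- extremal word -/
def W : ℕ → List ℕ
  | 0 => []
  | 1 => [1]
  | (n + 2) => (n + 2) :: (W n ++ [n + 2])

lemma W_length (n : ℕ) : (W n).length = n := by
  induction n using Nat.strong_induction_on with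
  | _ n ih =>
    match n with
    | 0 => rfl
    | 1 => rfl
    | (k + 2) => simp [W, ih k (by omega)]

lemma W_lt (n : ℕ) : ∀ x ∈ W n, x ≤ n := by
  induction n using Nat.strong_induction_on with
  | _ n ih =>
    match n with
    | 0 => simp [W]
    | 1 => simp [W]
    | (k + 2) =>
      intro x hx
      simp only [W, List.mem_cons, List.mem_append, List.not_mem_nil, or_false] at hx
      rcases hx with h | h | h
      · omega
      · have := ih k (by omega) x h; omega
      · omega

lemma W_card (n : ℕ) : F n ≤ (P (W n)).card := by
  induction n using Nat.strong_induction_on with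
  | _ n ih =>
    match n with
    | 0 => decide
    | 1 => decide
    | (k + 2) =>
      have hk := ih k (by omega)
      have hsub : P (W k) ∪ insert [k + 2] ((P (W k)).image (fun p => (k + 2) :: (p ++ [k + 2])))
          ⊆ P (W (k + 2)) := by
        intro u hu
        rw [Finset.mem_union, Finset.mem_insert, Finset.mem_image] at hu
        rw [mem_P]
        rcases hu with h | h | ⟨p, hp, rfl⟩
        · rw [mem_P] at h
          refine ⟨?_, h.2⟩
          show u.Sublist ((k + 2) :: (W k ++ [k + 2]))
          exact (h.1.trans (List.sublist_append_left _ _)).cons _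
        · subst h
          refine ⟨?_, rfl⟩
          show [k + 2].Sublist ((k + 2) :: (W k ++ [k + 2]))
          simp
        · rw [mem_P] at hp
          refine ⟨?_, ?_⟩
          · show ((k + 2) :: (p ++ [k + 2])).Sublist ((k + 2) :: (W k ++ [k + 2]))
            exact (hp.1.append (List.Sublist.refl _)).cons_cons _
          · simp [hp.2]
      refine le_trans ?_ (Finset.card_le_card hsub)
      have hnotin : ∀ u ∈ P (W k), k + 2 ∉ u := by
        intro u hu hmem
        rw [mem_P] at hu
        have := W_lt k _ (hu.1.subset hmem)
        omega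
      rw [Finset.card_union_of_disjoint, Finset.card_insert_of_notMem, Finset.card_image_of_injective]
      · rw [F_add_two]; omega
      · intro p q hpq
        simp only [List.cons.injEq, true_and] at hpq
        exact List.append_cancel_right hpq
      · rw [Finset.mem_image]
        rintro ⟨p, _, hp⟩
        simp at hp
      · rw [Finset.disjoint_left]
        intro u hu hu2
        have h0 := hnotin u hu
        rw [Finset.mem_insert, Finset.mem_image] at hu2
        rcases hu2 with h | ⟨p, _, rfl⟩
        · subst h; simp at h0
        · simp at h0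

lemma F_even (m : ℕ) : F (2 * m) + 1 = 2 ^ (m + 1) := by
  induction m with
  | zero => simp [F]
  | succ m ih =>
    have : F (2 * (m + 1)) = 2 * F (2 * m) + 1 := rfl
    rw [this, pow_succ]; omega

lemma F_odd (m : ℕ) : F (2 * m + 1) + 1 = 3 * 2 ^ m := by
  induction m with
  | zero => simp [F]
  | succ m ih =>
    have : F (2 * (m + 1) + 1) = 2 * F (2 * m + 1) + 1 := rfl
    rw [this, pow_succ]; omega

end Pool.Agent.Work.MP_06621a_co
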